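import Mathlib

namespace Pool.Agent.Results.MP_8c8deb_an.NoUniformBound

open Matrix

/-- `P_n = A_n B_n A_{n-1} B_{n-1} ⋯ A_1 B_1` (and `P_0 = 1`). The sequences are indexed from `0`:
`A k` is `A_{k+1}` and `B k` is `B_{k+1}`. -/
def P {d : ℕ} (A B : ℕ → Matrix (Fin d) (Fin d) ℝ) : ℕ → Matrix (Fin d) (Fin d) ℝ
  | 0 => 1
  | n + 1 => A n * B n * P A B n

/-- Condition (H): every sequence `A` in `𝒜` admits a sequence `B` in `ℬ`
with `sup_n ‖P_n‖ < ∞`. -/
def CondH {d : ℕ} (N : Seminorm ℝ (Matrix (Fin d) (Fin d) ℝ))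
    (𝒜 ℬ : Set (Matrix (Fin d) (Fin d) ℝ)) : Prop :=
  ∀ A : ℕ → Matrix (Fin d) (Fin d) ℝ, (∀ n, A n ∈ 𝒜) →
    ∃ B : ℕ → Matrix (Fin d) (Fin d) ℝ, (∀ n, B n ∈ ℬ) ∧
      ∃ C : ℝ, ∀ n : ℕ, 1 ≤ n → N (P A B n) ≤ C

/-- The uniform version: one constant `C > 0` works for all sequences `A` in `𝒜`. -/
def Uniform {d : ℕ} (N : Seminorm ℝ (Matrix (Fin d) (Fin d) ℝ))
    (𝒜 ℬ : Set (Matrix (Fin d) (Fin d) ℝ)) : Prop :=
  ∃ C : ℝ, 0 < C ∧ ∀ A : ℕ → Matrix (Fin d) (Fin d) ℝ, (∀ n, A n ∈ 𝒜) →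
    ∃ B : ℕ → Matrix (Fin d) (Fin d) ℝ, (∀ n, B n ∈ ℬ) ∧ ∀ n : ℕ, 1 ≤ n → N (P A B n) ≤ C

/-! ### Norms on finite-dimensional spaces -/

lemma bound_of_norm {E : Type*} [AddCommGroup E] [Module ℝ E] [FiniteDimensional ℝ E]
    (p : Seminorm ℝ E) (hp : ∀ x, p x = 0 → x = 0) (l : E →ₗ[ℝ] ℝ) :
    ∃ c : ℝ, ∀ x, |l x| ≤ c * p x := by
  letI : Norm E := ⟨p⟩
  have core : NormedSpace.Core ℝ E :=
    { norm_nonneg := fun x => apply_nonneg p x
      norm_smul := fun c x => map_smul_eq_mul p c x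
      norm_triangle := fun x y => map_add_le_add p x y
      norm_eq_zero_iff := fun x => ⟨hp x, fun h => by
        rw [h]; exact map_zero p⟩ }
  letI i1 : NormedAddCommGroup E := NormedAddCommGroup.ofCore core
  letI i2 : NormedSpace ℝ E := NormedSpace.ofCore core
  refine ⟨‖LinearMap.toContinuousLinearMap l‖, fun x => ?_⟩
  have := (LinearMap.toContinuousLinearMap l).le_opNorm x
  exact this

lemma entries_le {d : ℕ} (N : Seminorm ℝ (Matrix (Fin d) (Fin d) ℝ))
    (hN : ∀ M, N M = 0 → M = 0) (i j : Fin d) :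
    ∃ c : ℝ, ∀ M : Matrix (Fin d) (Fin d) ℝ, |M i j| ≤ c * N M :=
  bound_of_norm N hN (Matrix.entryLinearMap ℝ ℝ i j)

/-! ### The counterexample -/

section Counter
variable (k : ℕ)

def M : Matrix (Fin (k + 2)) (Fin (k + 2)) ℝ := Matrix.single 0 1 2
def BP : Matrix (Fin (k + 2)) (Fin (k + 2)) ℝ := Matrix.single 0 0 2 + Matrix.single 1 1 1
def BG : Matrix (Fin (k + 2)) (Fin (k + 2)) ℝ := Matrix.single 1 0 1 + Matrix.single 1 1 1

lemma one_ne : (1 : Fin (k + 2)) ≠ 0 := by simp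
lemma zero_ne : (0 : Fin (k + 2)) ≠ 1 := by simp

lemma BG_mul_BG : BG k * BG k = BG k := by
  have h := zero_ne k
  simp [BG, Matrix.mul_add, Matrix.add_mul, h]

/-- a matrix whose rows other than row `0` vanish. -/
def Row0 (Q : Matrix (Fin (k + 2)) (Fin (k + 2)) ℝ) : Prop := ∀ i j, i ≠ 0 → Q i j = 0

lemma row0_M (Q : Matrix (Fin (k + 2)) (Fin (k + 2)) ℝ) : Row0 k (M k * Q) := by
  intro i j hi
  rw [Matrix.mul_apply]
  refine Finset.sum_eq_zero fun l _ => ?_
  have : M k i l = 0 := by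
    simp [M, Matrix.single_apply, Ne.symm hi]
  rw [this, zero_mul]

lemma row0_BP (Q : Matrix (Fin (k + 2)) (Fin (k + 2)) ℝ) (hQ : Row0 k Q) :
    Row0 k (BP k * Q) := by
  intro i j hi
  rw [Matrix.mul_apply]
  refine Finset.sum_eq_zero fun l _ => ?_
  by_cases hl : l = 0
  · have : BP k i l = 0 := by
      simp [BP, Matrix.single_apply, Ne.symm hi, hl]
    rw [this, zero_mul]
  · rw [hQ l j hl, mul_zero]

lemma M_BP_zero (Q : Matrix (Fin (k + 2)) (Fin (k + 2)) ℝ) (hQ : Row0 k Q) :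
    M k * Q = 0 := by
  ext i j
  rw [Matrix.mul_apply]
  refine Finset.sum_eq_zero fun l _ => ?_
  by_cases hl : l = 0
  · have : M k i l = 0 := by
      simp [M, Matrix.single_apply, hl]
    rw [this, zero_mul]
  · rw [hQ l j hl, mul_zero]

lemma condH (N : Seminorm ℝ (Matrix (Fin (k + 2)) (Fin (k + 2)) ℝ)) :
    CondH N {1, M k} {BP k, BG k} := by
  intro A hA
  have key : ∀ B : ℕ → Matrix (Fin (k + 2)) (Fin (k + 2)) ℝ,
      (∃ (m : ℕ) (Q : Matrix (Fin (k + 2)) (Fin (k + 2)) ℝ), ∀ n, m ≤ n → P A B n = Q) →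
      ∃ C : ℝ, ∀ n : ℕ, 1 ≤ n → N (P A B n) ≤ C := by
    rintro B ⟨m, Q, hQ⟩
    have h1 : Filter.IsBoundedUnder (· ≤ ·) Filter.atTop (fun n => N (P A B n)) := by
      refine ⟨N Q, ?_⟩
      rw [Filter.eventually_map]
      filter_upwards [Filter.eventually_ge_atTop m] with n hn
      rw [hQ n hn]
    obtain ⟨C, hC⟩ := h1.bddAbove_range
    exact ⟨C, fun n _ => hC ⟨n, rfl⟩⟩
  by_cases h : ∃ m, ∀ n, m ≤ n → A n = 1
  · obtain ⟨m, hm⟩ := h
    refine ⟨fun _ => BG k, fun n => by simp, key _ ⟨m + 1, BG k * P A (fun _ => BG k) m, ?_⟩⟩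
    intro n hn
    induction n, hn using Nat.le_induction with
    | base => simp [P, hm m le_rfl]
    | succ n hn ih =>
      have : P A (fun _ => BG k) (n + 1) = A n * BG k * P A (fun _ => BG k) n := rfl
      rw [this, ih, hm n (by omega), Matrix.one_mul, ← Matrix.mul_assoc, BG_mul_BG]
  · push Not at h
    have hM : ∀ m, ∃ n, m ≤ n ∧ A n = M k := by
      intro m
      obtain ⟨n, hn, hn'⟩ := h m
      refine ⟨n, hn, ?_⟩
      rcases hA n with h1 | h1
      · exact absurd h1 hn'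
      · exact h1
    obtain ⟨m1, -, hm1⟩ := hM 0
    obtain ⟨m2, hm12, hm2⟩ := hM (m1 + 1)
    refine ⟨fun _ => BP k, fun n => by simp, key _ ⟨m2 + 1, 0, ?_⟩⟩
    have hrec : ∀ n, P A (fun _ => BP k) (n + 1) = A n * (BP k * P A (fun _ => BP k) n) := by
      intro n
      show A n * BP k * P A (fun _ => BP k) n = _
      rw [Matrix.mul_assoc]
    have hrow : ∀ n, m1 + 1 ≤ n → Row0 k (P A (fun _ => BP k) n) := by
      intro n hn
      induction n, hn using Nat.le_induction with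
      | base => rw [hrec, hm1]; exact row0_M k _
      | succ n hn ih =>
        rw [hrec]
        rcases hA n with h1 | h1
        · rw [h1, Matrix.one_mul]; exact row0_BP k _ ih
        · rw [Set.mem_singleton_iff.1 h1]; exact row0_M k _
    intro n hn
    induction n, hn using Nat.le_induction with
    | base =>
      rw [hrec, hm2]
      exact M_BP_zero k _ (row0_BP k _ (hrow m2 hm12))
    | succ n hn ih => rw [hrec, ih]; simp

/-- the adversary's sequence `1, …, 1, M, 1, …, 1, M, …` with blocks of `K` ones. -/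
def Aseq (K n : ℕ) : Matrix (Fin (k + 2)) (Fin (k + 2)) ℝ :=
  if (n + 1) % (K + 1) = 0 then M k else 1

lemma single_mulVec_single (i j l : Fin (k + 2)) (c w : ℝ) :
    (Matrix.single i j c : Matrix (Fin (k + 2)) (Fin (k + 2)) ℝ) *ᵥ Pi.single l w
      = if j = l then Pi.single i (c * w) else 0 := by
  ext a
  simp only [Matrix.mulVec_single, Matrix.single_apply]
  by_cases hj : j = l
  · subst hj
    by_cases ha : i = a
    · subst ha; simp
    · simp [ha, Pi.single_apply, Ne.symm ha]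
  · simp [hj]

lemma M_single (w : ℝ) : M k *ᵥ Pi.single 1 w = Pi.single 0 (2 * w) := by
  rw [M, single_mulVec_single]; simp

lemma BP_single0 (w : ℝ) : BP k *ᵥ Pi.single 0 w = Pi.single 0 (2 * w) := by
  rw [BP, Matrix.add_mulVec, single_mulVec_single, single_mulVec_single]; simp

lemma BP_single1 (w : ℝ) : BP k *ᵥ Pi.single 1 w = Pi.single 1 w := by
  rw [BP, Matrix.add_mulVec, single_mulVec_single, single_mulVec_single]; simp

lemma BG_single0 (w : ℝ) : BG k *ᵥ Pi.single 0 w = Pi.single 1 w := by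
  rw [BG, Matrix.add_mulVec, single_mulVec_single, single_mulVec_single]; simp

lemma BG_single1 (w : ℝ) : BG k *ᵥ Pi.single 1 w = Pi.single 1 w := by
  rw [BG, Matrix.add_mulVec, single_mulVec_single, single_mulVec_single]; simp

lemma step_one {A B : ℕ → Matrix (Fin (k + 2)) (Fin (k + 2)) ℝ} {n : ℕ} {v : Fin (k + 2) → ℝ} :
    P A B (n + 1) *ᵥ v = A n *ᵥ (B n *ᵥ (P A B n *ᵥ v)) := by
  show (A n * B n * P A B n) *ᵥ v = _
  rw [← Matrix.mulVec_mulVec, ← Matrix.mulVec_mulVec]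

/-- within a block: either all choices so far in the block were `BP` and the weight is doubled each
time, or we sit in state `1`. -/
lemma block (K : ℕ) (B : ℕ → Matrix (Fin (k + 2)) (Fin (k + 2)) ℝ)
    (hB : ∀ n, B n ∈ ({BP k, BG k} : Set _)) (m : ℕ) (w : ℝ)
    (hw : P (Aseq k K) B (m * (K + 1)) *ᵥ Pi.single 0 1 = Pi.single 0 w) (hw1 : 1 ≤ w)
    (r : ℕ) (hr : r ≤ K) :
    P (Aseq k K) B (m * (K + 1) + r) *ᵥ Pi.single 0 1 = Pi.single 0 (2 ^ r * w) ∨
    ∃ w', w ≤ w' ∧ P (Aseq k K) B (m * (K + 1) + r) *ᵥ Pi.single 0 1 = Pi.single 1 w' := by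
  induction r with
  | zero => left; simpa using hw
  | succ r ih =>
    have hA : Aseq k K (m * (K + 1) + r) = 1 := by
      unfold Aseq
      rw [if_neg]
      have : (m * (K + 1) + r + 1) % (K + 1) = r + 1 := by
        rw [add_assoc, mul_comm, Nat.mul_add_mod]
        exact Nat.mod_eq_of_lt (by omega)
      omega
    have hstep := step_one k (A := Aseq k K) (B := B) (n := m * (K + 1) + r)
      (v := Pi.single 0 1)
    rw [hA, Matrix.one_mulVec] at hstep
    rw [← add_assoc, hstep]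
    rcases ih (by omega) with h | ⟨w', hw', h⟩
    · rw [h]
      rcases hB (m * (K + 1) + r) with h1 | h1
      · left; rw [h1, BP_single0, pow_succ]; congr 1; ring
      · right
        refine ⟨2 ^ r * w, ?_, ?_⟩
        · have : (1 : ℝ) ≤ 2 ^ r := one_le_pow₀ (by norm_num)
          nlinarith
        · rw [Set.mem_singleton_iff.1 h1, BG_single0]
    · right
      refine ⟨w', hw', ?_⟩
      rw [h]
      rcases hB (m * (K + 1) + r) with h1 | h1
      · rw [h1, BP_single1]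
      · rw [Set.mem_singleton_iff.1 h1, BG_single1]

lemma big (K : ℕ) (hK : 1 ≤ K) (B : ℕ → Matrix (Fin (k + 2)) (Fin (k + 2)) ℝ)
    (hB : ∀ n, B n ∈ ({BP k, BG k} : Set _)) (C : ℝ) (hC : C < 2 ^ K) :
    ∃ n, 1 ≤ n ∧ ∃ i, C < |P (Aseq k K) B n i 0| := by
  by_contra hcon
  push Not at hcon
  have hent : ∀ n, 1 ≤ n → ∀ i w, P (Aseq k K) B n *ᵥ Pi.single 0 1 = Pi.single i w → |w| ≤ C := by
    intro n hn i w h
    have h2 := congrFun h i
    rw [Pi.single_eq_same] at h2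
    rw [Matrix.mulVec_single_one] at h2
    rw [← h2]
    exact hcon n hn i
  have hm : ∀ m, ∃ w, (2 : ℝ) ^ m ≤ w ∧
      P (Aseq k K) B (m * (K + 1)) *ᵥ Pi.single 0 1 = Pi.single 0 w := by
    intro m
    induction m with
    | zero =>
      refine ⟨1, by simp, ?_⟩
      rw [Nat.zero_mul]
      exact Matrix.one_mulVec _
    | succ m ih =>
      obtain ⟨w, hw, h⟩ := ih
      have hw1 : (1 : ℝ) ≤ w := le_trans (one_le_pow₀ (by norm_num)) hw
      rcases block k K B hB m w h hw1 K le_rfl with h1 | ⟨w', hw', h1⟩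
      · exfalso
        have := hent (m * (K + 1) + K) (by omega) 0 _ h1
        have h3 : (2 : ℝ) ^ K ≤ 2 ^ K * w := by
          have : (0 : ℝ) < 2 ^ K := by positivity
          nlinarith
        have h4 := le_abs_self ((2 : ℝ) ^ K * w)
        linarith
      · refine ⟨2 * w', ?_, ?_⟩
        · rw [pow_succ]; linarith
        · have e : (m + 1) * (K + 1) = m * (K + 1) + K + 1 := by ring
          have hA : Aseq k K (m * (K + 1) + K) = M k := by
            unfold Aseq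
            rw [if_pos]
            rw [← e]
            exact Nat.mul_mod_left _ _
          rw [e, step_one, h1, hA]
          rcases hB (m * (K + 1) + K) with h2 | h2
          · rw [h2, BP_single1, M_single]
          · rw [Set.mem_singleton_iff.1 h2, BG_single1, M_single]
  obtain ⟨m, hm'⟩ := pow_unbounded_of_one_lt C (show (1 : ℝ) < 2 by norm_num)
  obtain ⟨w, hw, h⟩ := hm (m + 1)
  have h1 := hent ((m + 1) * (K + 1)) (by nlinarith) 0 w h
  have h2 := le_abs_self w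
  have h3 : (2 : ℝ) ^ m ≤ 2 ^ (m + 1) := pow_le_pow_right₀ (by norm_num) (by omega)
  linarith

lemma not_uniform (N : Seminorm ℝ (Matrix (Fin (k + 2)) (Fin (k + 2)) ℝ))
    (hN : ∀ M, N M = 0 → M = 0) :
    ¬ Uniform N {1, M k} {BP k, BG k} := by
  rintro ⟨C, hC, h⟩
  choose c hc using fun i : Fin (k + 2) => entries_le N hN i 0
  -- a common constant
  obtain ⟨D, hD⟩ : ∃ D : ℝ, ∀ i, c i ≤ D :=
    ⟨∑ i, |c i|, fun i => (le_abs_self _).trans
      (Finset.single_le_sum (f := fun i => |c i|) (fun _ _ => abs_nonneg _) (Finset.mem_univ i))⟩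
  obtain ⟨K, hK⟩ := pow_unbounded_of_one_lt (D * C) (show (1 : ℝ) < 2 by norm_num)
  have hK' : D * C < 2 ^ (K + 1) := hK.trans (pow_lt_pow_right₀ (by norm_num) (by omega))
  obtain ⟨B, hB, hb⟩ := h (Aseq k (K + 1)) (fun n => by
    unfold Aseq; split_ifs <;> simp)
  obtain ⟨n, hn, i, hi⟩ := big k (K + 1) (by omega) B hB (D * C) hK'
  have h1 := hc i (P (Aseq k (K + 1)) B n)
  have h2 := hb n hn
  have h3 : 0 ≤ N (P (Aseq k (K + 1)) B n) := apply_nonneg N _
  have h4 : c i * N (P (Aseq k (K + 1)) B n) ≤ D * C := by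
    calc c i * N (P (Aseq k (K + 1)) B n) ≤ D * N (P (Aseq k (K + 1)) B n) :=
          mul_le_mul_of_nonneg_right (hD i) h3
      _ ≤ D * C := by
          by_cases hD0 : 0 ≤ D
          · exact mul_le_mul_of_nonneg_left h2 hD0
          · exfalso
            push Not at hD0
            have h5 := abs_nonneg (P (Aseq k (K + 1)) B n i 0)
            have h6 : c i * N (P (Aseq k (K + 1)) B n) ≤ 0 :=
              mul_nonpos_of_nonpos_of_nonneg ((hD i).trans hD0.le) h3
            have h7 : P (Aseq k (K + 1)) B n i 0 = 0 := by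
              apply abs_eq_zero.1; linarith
            rw [h7, abs_zero] at hi
            -- then the entry is zero while `D * C < 0`; use the first step of the product
            have h8 := hc 0 1
            have h9 : (0 : ℝ) < N 1 := by
              refine lt_of_le_of_ne (apply_nonneg N _) (fun h0 => ?_)
              have := congrFun (congrFun (hN 1 h0.symm) 0) 0
              simp at this
            have h10 : |(1 : Matrix (Fin (k + 2)) (Fin (k + 2)) ℝ) 0 0| = 1 := by simp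
            rw [h10] at h8
            have : c 0 * N 1 < 0 := mul_neg_of_neg_of_pos (lt_of_le_of_lt (hD 0) hD0) h9
            linarith
  linarith

end Counter

/-! ### The case `d = 1` -/

lemma P_one (A B : ℕ → Matrix (Fin 1) (Fin 1) ℝ) (n : ℕ) :
    P A B (n + 1) 0 0 = A n 0 0 * B n 0 0 * P A B n 0 0 := by
  show (A n * B n * P A B n) 0 0 = _
  simp [Matrix.mul_apply]

lemma uniform_one (N : Seminorm ℝ (Matrix (Fin 1) (Fin 1) ℝ)) (hN : ∀ M, N M = 0 → M = 0)
    (𝒜 ℬ : Set (Matrix (Fin 1) (Fin 1) ℝ)) (hfB : ℬ.Finite) (hneB : ℬ.Nonempty)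
    (hH : CondH N 𝒜 ℬ) : Uniform N 𝒜 ℬ := by
  obtain ⟨b, hb, hmin⟩ := Set.exists_min_image ℬ (fun b => |b 0 0|) hfB hneB
  have hN1 : (0 : ℝ) < N 1 := by
    refine lt_of_le_of_ne (apply_nonneg N _) (fun h0 => ?_)
    have := congrFun (congrFun (hN 1 h0.symm) 0) 0
    simp at this
  have hNM : ∀ Q : Matrix (Fin 1) (Fin 1) ℝ, N Q = |Q 0 0| * N 1 := by
    intro Q
    have : Q = Q 0 0 • (1 : Matrix (Fin 1) (Fin 1) ℝ) := by
      ext i j
      fin_cases i; fin_cases j; simp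
    conv_lhs => rw [this]
    rw [map_smul_eq_mul, Real.norm_eq_abs]
  have hab : ∀ a ∈ 𝒜, |a 0 0| * |b 0 0| ≤ 1 := by
    intro a ha
    by_contra hcon
    push Not at hcon
    obtain ⟨B, hB, C, hC⟩ := hH (fun _ => a) (fun _ => ha)
    have hlow : ∀ n, (|a 0 0| * |b 0 0|) ^ n ≤ |P (fun _ => a) B n 0 0| := by
      intro n
      induction n with
      | zero => simp [P]
      | succ n ih =>
        rw [P_one, abs_mul, abs_mul, pow_succ, mul_comm]
        refine mul_le_mul ?_ ih (by positivity) (by positivity)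
        exact mul_le_mul_of_nonneg_left (hmin _ (hB n)) (abs_nonneg _)
    obtain ⟨n, hn⟩ := pow_unbounded_of_one_lt (C / N 1) hcon
    have h1 := hC (n + 1) (by omega)
    rw [hNM, ← le_div_iff₀ hN1] at h1
    have h2 := hlow (n + 1)
    have h3 : (|a 0 0| * |b 0 0|) ^ n ≤ (|a 0 0| * |b 0 0|) ^ (n + 1) :=
      pow_le_pow_right₀ hcon.le (by omega)
    linarith
  refine ⟨N 1, hN1, fun A hA => ⟨fun _ => b, fun _ => hb, fun n _ => ?_⟩⟩
  rw [hNM]
  have : ∀ n, |P A (fun _ => b) n 0 0| ≤ 1 := by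
    intro n
    induction n with
    | zero => simp [P]
    | succ n ih =>
      rw [P_one, abs_mul, abs_mul]
      calc |A n 0 0| * |b 0 0| * |P A (fun _ => b) n 0 0| ≤ 1 * 1 :=
            mul_le_mul (hab _ (hA n)) (ih) (abs_nonneg _) zero_le_one
        _ = 1 := one_mul 1
  calc |P A (fun _ => b) n 0 0| * N 1 ≤ 1 * N 1 := mul_le_mul_of_nonneg_right (this n) hN1.le
    _ = N 1 := one_mul _

/-- **Uniform bounds for matrix products with chosen factors fail in every dimension `d ≥ 2`.**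
For every `d ≥ 2` there are finite (two-element) sets `𝒜`, `ℬ` of real `d × d` matrices such that,
for every norm, condition (H) holds but there is no uniform constant. In dimension `d = 1` condition
(H) does imply the uniform version. -/
theorem result :
    (∀ d : ℕ, 2 ≤ d → ∃ 𝒜 ℬ : Set (Matrix (Fin d) (Fin d) ℝ),
      (𝒜.ncard = 2 ∧ ℬ.ncard = 2) ∧
      ∀ N : Seminorm ℝ (Matrix (Fin d) (Fin d) ℝ), (∀ M, N M = 0 → M = 0) →
        CondH N 𝒜 ℬ ∧ ¬ Uniform N 𝒜 ℬ) ∧
    (∀ N : Seminorm ℝ (Matrix (Fin 1) (Fin 1) ℝ), (∀ M, N M = 0 → M = 0) →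
      ∀ 𝒜 ℬ : Set (Matrix (Fin 1) (Fin 1) ℝ), 𝒜.Finite → 𝒜.Nonempty → ℬ.Finite → ℬ.Nonempty →
        CondH N 𝒜 ℬ → Uniform N 𝒜 ℬ) := by
  refine ⟨fun d hd => ?_, fun N hN 𝒜 ℬ _ _ hfB hneB hH => uniform_one N hN 𝒜 ℬ hfB hneB hH⟩
  obtain ⟨k, rfl⟩ : ∃ k, d = k + 2 := ⟨d - 2, by omega⟩
  refine ⟨{1, M k}, {BP k, BG k}, ⟨Set.ncard_pair ?_, Set.ncard_pair ?_⟩, fun N hN =>
    ⟨condH k N, not_uniform k N hN⟩⟩
  · intro h
    have := congrFun (congrFun h 0) 0
    simp [M] at this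
  · intro h
    have := congrFun (congrFun h 0) 0
    simp [BP, BG] at this

end Pool.Agent.Results.MP_8c8deb_an.NoUniformBound
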